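import Pool.Agent.Q260.DJ.All

/-!
# Neither differentiation nor Jensen shifts enlarge the zero-free region

Let `ξ(s) = s (s - 1) π^(-s/2) Γ(s/2) ζ(s) / 2` and `8 ξ(1/2 + z) = ∑ γ(k) z^(2k) / k!`.  The zeros of the derivatives
`ξ^(n)` are closer and closer to the critical line, and the Jensen polynomials
`J^{d,n}(X) = ∑ C(d,j) γ(n+j) X^j` of degree `d` and shift `n` are known to have only real zeros if `n` is large in terms
of `d` (Griffin-Ono-Rolen-Zagier).  The Riemann hypothesis implies that all zeros of all `ξ^(n)` are on the line, and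
that all `J^{d,n}` have only real zeros (i.e. all zeros of `Φ_n(z) = ∑ γ(n+k) z^(2k) / k!` are purely imaginary).

We prove that asymptotically the converse holds for each single `n`.  Unconditionally, for each `n` the zeros of
`F = ξ^(n)`, and of `F(s) = Φ_n(s - 1/2)`, have the same asymptotic abscissa as the zeros of the zeta function: for
`θ ≥ 1/2`, finitely many zeros with `Re s > θ + ε` for all `ε > 0`, for `F` if and only if for `ζ`.  More precisely a zero
`β + iγ` of `ζ` with `β > σ + ε` forces a zero of `F` to the right of `σ` within `C log γ`, and conversely within `C`.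
In particular `ζ` has a zero-free half-plane `Re s ≥ σ₀`, `σ₀ < 1`, if and only if `ξ^(n)` (or `Φ_n(s - 1/2)`) has only
finitely many zeros in some half-plane `Re s ≥ σ₀`, `σ₀ < 1`, for ONE `n`.
If `F` has only finitely many zeros to the right of the critical line for ONE `n`, in particular if all zeros of
`ξ^(n)` are on the line for ONE `n`, or if for ONE shift `n` the Jensen polynomials of all degrees have only real zeros,
then the Lindelof hypothesis is true, and all zeros `β + iγ` of `ζ` satisfy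
`|β - 1/2| ≤ C logloglog γ / loglog γ` for large `γ`.

Idea: if `G'` has no zeros to the right of `σ` near height `T`, then `log |G' / gamma factor|` is `o(log T)` there
(Borel-Caratheodory, three circles).  By integration along the VERTICAL ray upwards (the gamma factor decays
exponentially, so only heights up to `T + K log T` matter) `G` is not larger than `T^(o(1))` times the gamma factor;
so there is no large constant of integration.  Then the differential equation `u' = 1 - q u` for `u = G / G'`,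
`q = G'' / G' ~ (1/2) log T`, shows along horizontal lines that `u ~ 2 / log T`, so `G` has no zeros a little further to the
right.
-/

set_option autoImplicit false

open Complex Filter Topology Polynomial

namespace Pool.Agent.Results.MP_5a4862_nt.DerivativesAndShifts

/-- The Riemann function `ξ(s) = s (s - 1) Λ(s) / 2`, `Λ(s) = π^(-s/2) Γ(s/2) ζ(s) = Λ₀(s) - 1/s - 1/(1-s)`. -/
noncomputable def xi (s : ℂ) : ℂ := s * (s - 1) / 2 * completedRiemannZeta₀ s + 1 / 2

/-- The coefficients `γ(k)` in `8 ξ(1/2 + z) = ∑ γ(k) z^(2k) / k!`. -/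
noncomputable def γ (k : ℕ) : ℝ :=
  (k.factorial : ℝ) / ((2 * k).factorial : ℝ) * (iteratedDeriv (2 * k) (fun z : ℂ => 8 * xi (1 / 2 + z)) 0).re

/-- The Jensen polynomial of degree `d` and shift `n`. -/
noncomputable def J (d n : ℕ) : ℝ[X] :=
  ∑ j ∈ Finset.range (d + 1), Polynomial.C ((d.choose j : ℝ) * γ (n + j)) * Polynomial.X ^ j

/-- All complex zeros are real. -/
def Hyperbolic (P : ℝ[X]) : Prop := ∀ z : ℂ, aeval z P = 0 → z.im = 0

/-- The shifted function `Φ_n(z) = ∑ γ(n+k) z^(2k) / k!`; `Φ_0(z) = 8 ξ(1/2 + z)`. -/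
noncomputable def Φ (n : ℕ) (z : ℂ) : ℂ := ∑' k : ℕ, ((γ (n + k) : ℝ) : ℂ) / (k.factorial : ℂ) * z ^ (2 * k)

/-- For every `ε > 0` there are only finitely many zeros with `Re s > θ + ε`. -/
def AlmostFree (F : ℂ → ℂ) (θ : ℝ) : Prop :=
  ∀ ε : ℝ, 0 < ε → {s : ℂ | θ + ε < s.re ∧ F s = 0}.Finite

/-- The zeros of `F` and of `ζ`: the same asymptotic abscissa, and a local dictionary. -/
def Dictionary (F : ℂ → ℂ) : Prop :=
  (∀ θ : ℝ, 1 / 2 ≤ θ → (AlmostFree F θ ↔ AlmostFree riemannZeta θ)) ∧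
  ∀ ε : ℝ, 0 < ε → ∃ C : ℝ,
    (∀ (ρ : ℂ) (σ : ℝ), riemannZeta ρ = 0 → C ≤ ρ.im → 1 / 2 ≤ σ → σ + ε ≤ ρ.re →
      ∃ w : ℂ, F w = 0 ∧ σ < w.re ∧ |w.im - ρ.im| ≤ C * Real.log ρ.im) ∧
    (∀ (ρ : ℂ) (σ : ℝ), F ρ = 0 → C ≤ ρ.im → 1 / 2 ≤ σ → σ + ε ≤ ρ.re →
      ∃ w : ℂ, riemannZeta w = 0 ∧ σ < w.re ∧ |w.im - ρ.im| ≤ C)

/-- The Lindelof hypothesis. -/
def Lindelof : Prop := ∀ ε : ℝ, 0 < ε → ∃ C : ℝ, ∀ t : ℝ,
  ‖riemannZeta (1 / 2 + t * I)‖ ≤ C * (1 + |t|) ^ ε

/-- Q1 of the problem: a zero-free half-plane `Re s ≥ σ₀` for some `1/2 < σ₀ < 1`. -/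
def Q1 : Prop := ∃ σ₀ : ℝ, 1 / 2 < σ₀ ∧ σ₀ < 1 ∧ ∀ s : ℂ, σ₀ ≤ s.re → riemannZeta s ≠ 0

/-- The zeros of `ζ` approach the critical line: `|β - 1/2| ≤ C logloglog γ / loglog γ`. -/
def CloseToTheLine : Prop := ∃ C : ℝ, ∀ ρ : ℂ, riemannZeta ρ = 0 → C ≤ ρ.im →
  |ρ.re - 1 / 2| ≤ C * (Real.log (Real.log (Real.log ρ.im)) / Real.log (Real.log ρ.im))

open Pool.Agent.Q260.DJ
open Pool.Agent.H24R2.JP (XX FF gam jensen Par b1 gamT goodT parT)
open Pool.Agent.H24R2.JP.B1h (XX_diff XX_conj)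
open Pool.Agent.H24R2.JP.Zer (XX_eq completed_zero)
open Pool.Agent.Q285.DJ (fin_iff fin_shift zeta_iff iter_conj iter_diff log_small)

lemma xi_eq : xi = Pool.Agent.H24R2.JP.xi := rfl

lemma XX_xi : (fun z : ℂ => 8 * xi (1 / 2 + z)) = XX := by
  funext z
  unfold xi XX
  ring

lemma gam_eq : γ = gam := by
  funext k
  unfold γ gam
  rw [XX_xi]

lemma J_eq : J = jensen := by
  funext d n
  unfold J jensen
  rw [gam_eq]

lemma hyp_eq (P : ℝ[X]) : Hyperbolic P ↔ Pool.Agent.H24R2.JP.Hyperbolic P := Iff.rfl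

lemma FFn_diff (n : ℕ) : Differentiable ℂ (iteratedDeriv n FF) :=
  Pool.Agent.H24R2.JP.XiFin.FF_iter_diff b1 n

lemma Φ_eq (n : ℕ) (z : ℂ) : Φ n z = iteratedDeriv n FF (z ^ 2) := by
  have h := Complex.hasSum_taylorSeries_of_entire (FFn_diff n) 0 (z ^ 2)
  rw [← h.tsum_eq]
  unfold Φ
  refine tsum_congr fun k => ?_
  have e : iteratedDeriv k (iteratedDeriv n FF) = iteratedDeriv (n + k) FF := by
    rw [iteratedDeriv_eq_iterate, iteratedDeriv_eq_iterate, iteratedDeriv_eq_iterate, ← Function.iterate_add_apply,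
      add_comm k n]
  rw [gam_eq, e, sub_zero, ← b1.2.2.2 (n + k), smul_eq_mul, smul_eq_mul, ← pow_mul]
  field_simp

/-- the list of steps -/
lemma It_true (n : ℕ) (z : ℂ) (hz : z ≠ 0) : It (List.replicate n true) z = Φ n z := by
  rw [idl.2 n z hz, Φ_eq]

lemma It_false (n : ℕ) (z : ℂ) : It (List.replicate n false) z = 8 * iteratedDeriv n xi (z + 1 / 2) := by
  rw [idl.1 n z, xi_eq, Pool.Agent.H24R2.JP.XiFin.iter_xi, add_sub_cancel_right]
  ring

lemma Φ_diff (n : ℕ) : Differentiable ℂ (Φ n) := by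
  have : Φ n = fun z => iteratedDeriv n FF (z ^ 2) := funext (Φ_eq n)
  rw [this]
  exact (FFn_diff n).comp (differentiable_id.pow 2)

lemma Φ_conj (n : ℕ) (z : ℂ) : Φ n ((starRingEnd ℂ) z) = (starRingEnd ℂ) (Φ n z) := by
  unfold Φ
  rw [Complex.conj_tsum]
  refine tsum_congr fun k => ?_
  rw [map_mul, map_div₀, map_pow, Complex.conj_ofReal, Complex.conj_natCast]

lemma Φ_strip (n : ℕ) (z : ℂ) (h : Φ n z = 0) : |z.re| ≤ 1 / 2 := by
  rw [Φ_eq] at h
  have h1 := parT FF goodT n _ h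
  unfold Pool.Agent.H24R2.JP.Par at h1
  rw [Set.mem_ofPred_eq, pow_two, Complex.mul_re, Complex.mul_im] at h1
  have h2 : z.re ^ 2 ≤ 1 / 4 := by
    by_contra hcon
    push Not at hcon
    nlinarith [mul_nonneg (sq_nonneg z.im) (sub_nonneg.2 hcon.le)]
  rw [abs_le]
  constructor <;> nlinarith

/-- a function whose zeros are those of `It l` (for `Re s > 1/2`) -/
structure Rep (l : List Bool) (F G : ℂ → ℂ) : Prop where
  diff : Differentiable ℂ G
  conj : ∀ z, G ((starRingEnd ℂ) z) = (starRingEnd ℂ) (G z)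
  strip : ∀ z, G z = 0 → |z.re| ≤ 1 / 2
  it : ∀ z, z ≠ 0 → (It l z = 0 ↔ G z = 0)
  shift : ∀ s, F s = 0 ↔ G (s - 1 / 2) = 0

lemma rep_false (n : ℕ) : Rep (List.replicate n false) (iteratedDeriv n xi) (iteratedDeriv n XX) where
  diff := iter_diff n
  conj := iter_conj n
  strip := spl n
  it := fun z _ => by rw [idl.1 n z]
  shift := fun s => by
    rw [xi_eq, Pool.Agent.H24R2.JP.XiFin.iter_xi, mul_eq_zero]
    constructor
    · rintro (h | h)
      · norm_num at h
      · exact h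
    · exact Or.inr

lemma rep_true (n : ℕ) : Rep (List.replicate n true) (fun s => Φ n (s - 1 / 2)) (Φ n) where
  diff := Φ_diff n
  conj := Φ_conj n
  strip := Φ_strip n
  it := fun z hz => by rw [It_true n z hz]
  shift := fun _ => Iff.rfl

lemma im_ne {z : ℂ} (h : 0 < z.im) : z ≠ 0 := by
  rintro rfl
  exact lt_irrefl _ h

lemma half_re : ((1 / 2 : ℂ)).re = 1 / 2 := by norm_num
lemma half_im : ((1 / 2 : ℂ)).im = 0 := by norm_num

/-- zeros of zeta above the real axis -/
lemma zeta_XX {s : ℂ} (hs : 0 < s.im) (h : riemannZeta s = 0) : XX (s - 1 / 2) = 0 := by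
  have hs0 : s ≠ 0 := im_ne hs
  have e : (1 / 2 + (s - 1 / 2) : ℂ) = s := by ring
  have hs1 : (1 - s : ℂ) ≠ 0 := by
    intro h1
    have : (1 - s : ℂ).im = 0 := by rw [h1, Complex.zero_im]
    rw [Complex.sub_im, Complex.one_im] at this
    linarith
  rw [XX_eq (s - 1 / 2) (by rw [e]; exact hs0) (by rw [e]; exact hs1), e]
  rw [riemannZeta_def_of_ne_zero hs0] at h
  rcases div_eq_zero_iff.1 h with h1 | h1
  · rw [h1, mul_zero]
  · obtain ⟨n, hn⟩ := Complex.Gammaℝ_eq_zero_iff.1 h1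
    rw [hn] at hs
    simp at hs

lemma XX_zeta' {s : ℂ} (h : XX (s - 1 / 2) = 0) : riemannZeta s = 0 := by
  have e : (1 / 2 + (s - 1 / 2) : ℂ) = s := by ring
  obtain ⟨h1, -, h3⟩ := completed_zero _ h
  rw [e] at h1 h3
  rw [riemannZeta_def_of_ne_zero h1, h3, zero_div]

theorem dict {l : List Bool} {F G : ℂ → ℂ} (r : Rep l F G) : Dictionary F := by
  have hXs : ∀ z, XX z = 0 → |z.re| ≤ 1 / 2 := fun z hz => spl 0 z (by rw [iteratedDeriv_zero]; exact hz)
  refine ⟨fun θ hθ => ?_, fun ε hε => ?_⟩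
  · have eA : ∀ ε : ℝ, 0 < ε → ({s : ℂ | θ + ε < s.re ∧ F s = 0}.Finite ↔
        ∃ T : ℝ, ∀ z : ℂ, G z = 0 → T ≤ z.im → z.re ≤ θ + ε - 1 / 2) := by
      intro ε hε
      rw [fin_shift (G := G) fun s _ => r.shift s, fin_iff r.diff r.conj r.strip]
    have eB : ∀ ε : ℝ, 0 < ε → ({s : ℂ | θ + ε < s.re ∧ riemannZeta s = 0}.Finite ↔
        ∃ T : ℝ, ∀ z : ℂ, XX z = 0 → T ≤ z.im → z.re ≤ θ + ε - 1 / 2) := by
      intro ε hε
      rw [fin_shift (G := XX), fin_iff XX_diff XX_conj hXs]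
      intro s hs
      exact zeta_iff (by linarith)
    unfold AlmostFree
    constructor
    · intro h ε hε
      rw [eB ε hε]
      obtain ⟨T, hT⟩ := (eA (ε / 2) (by linarith)).1 (h (ε / 2) (by linarith))
      obtain ⟨C, T0, hC, hT0, d1, -⟩ := di l (ε / 2) (by linarith)
      obtain ⟨T', hT'⟩ := log_small C (max T 1)
      refine ⟨max T0 T', fun z hz hzT => ?_⟩
      by_contra hcon
      push Not at hcon
      obtain ⟨w, hw1, hw2, hw3⟩ := d1 z (θ + ε / 2 - 1 / 2) hz ((le_max_left _ _).trans hzT)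
        (by linarith) (by linarith)
      have h4 := hT' z.im ((le_max_right _ _).trans hzT)
      have h5 := (abs_le.1 hw3).1
      have h7 : max T 1 ≤ w.im := by linarith
      rw [r.it w (im_ne (by linarith [le_max_right T 1]))] at hw1
      have h6 := hT w hw1 ((le_max_left _ _).trans h7)
      linarith
    · intro h ε hε
      rw [eA ε hε]
      obtain ⟨T, hT⟩ := (eB (ε / 2) (by linarith)).1 (h (ε / 2) (by linarith))
      obtain ⟨C, T0, hC, hT0, -, d2⟩ := di l (ε / 2) (by linarith)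
      refine ⟨max T0 (T + C), fun z hz hzT => ?_⟩
      by_contra hcon
      push Not at hcon
      have hz0 : 0 < z.im := by linarith [(le_max_left _ _).trans hzT]
      obtain ⟨w, hw1, hw2, hw3⟩ := d2 z (θ + ε / 2 - 1 / 2) ((r.it z (im_ne hz0)).2 hz)
        ((le_max_left _ _).trans hzT) (by linarith) (by linarith) ((le_abs_self _).trans (r.strip z hz))
      have h4 := (le_max_right _ _).trans hzT
      have h5 := (abs_le.1 hw3).1
      have h6 := hT w hw1 (by linarith)
      linarith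
  · obtain ⟨C, T0, hC, hT0, d1, d2⟩ := di l ε hε
    obtain ⟨T', hT'⟩ := log_small C 1
    refine ⟨max C (max T0 T'), fun ρ σ hρ hρC hσ hσρ => ?_, fun ρ σ hρ hρC hσ hσρ => ?_⟩
    · have a1 : T0 ≤ ρ.im := ((le_max_left _ _).trans (le_max_right _ _)).trans hρC
      have a2 : T' ≤ ρ.im := ((le_max_right _ _).trans (le_max_right _ _)).trans hρC
      have hre : (ρ - 1 / 2 : ℂ).re = ρ.re - 1 / 2 := by rw [Complex.sub_re, half_re]
      have him : (ρ - 1 / 2 : ℂ).im = ρ.im := by rw [Complex.sub_im, half_im, sub_zero]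
      obtain ⟨w, hw1, hw2, hw3⟩ := d1 (ρ - 1 / 2) (σ - 1 / 2) (zeta_XX (by linarith) hρ)
        (by rw [him]; exact a1) (by linarith) (by rw [hre]; linarith)
      rw [him] at hw3
      have h4 := hT' ρ.im a2
      have h5 := (abs_le.1 hw3).1
      rw [r.it w (im_ne (by linarith))] at hw1
      refine ⟨w + 1 / 2, (r.shift _).2 (by rw [add_sub_cancel_right]; exact hw1), ?_, ?_⟩
      · rw [Complex.add_re, half_re]
        linarith
      · rw [Complex.add_im, half_im, add_zero]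
        exact hw3.trans (mul_le_mul_of_nonneg_right (le_max_left _ _) (Real.log_nonneg (by linarith)))
    · have a1 : T0 ≤ ρ.im := ((le_max_left _ _).trans (le_max_right _ _)).trans hρC
      have hre : (ρ - 1 / 2 : ℂ).re = ρ.re - 1 / 2 := by rw [Complex.sub_re, half_re]
      have him : (ρ - 1 / 2 : ℂ).im = ρ.im := by rw [Complex.sub_im, half_im, sub_zero]
      have hG := (r.shift ρ).1 hρ
      have hst := (le_abs_self _).trans (r.strip _ hG)
      obtain ⟨w, hw1, hw2, hw3⟩ := d2 (ρ - 1 / 2) (σ - 1 / 2)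
        ((r.it _ (im_ne (by rw [him]; linarith))).2 hG)
        (by rw [him]; exact a1) (by linarith) (by rw [hre]; linarith) hst
      rw [him] at hw3
      refine ⟨w + 1 / 2, XX_zeta' (by rw [add_sub_cancel_right]; exact hw1), ?_, ?_⟩
      · rw [Complex.add_re, half_re]
        linarith
      · rw [Complex.add_im, half_im, add_zero]
        exact hw3.trans (le_max_left _ _)

theorem conseq {l : List Bool} {F G : ℂ → ℂ} (r : Rep l F G)
    (h : {s : ℂ | 1 / 2 < s.re ∧ F s = 0}.Finite) : Lindelof ∧ CloseToTheLine := by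
  have h1 : AlmostFree F (1 / 2) := fun ε hε =>
    h.subset fun s hs => ⟨by have := hs.1; linarith, hs.2⟩
  have h2 := ((dict r).1 (1 / 2) le_rfl).1 h1
  refine ⟨li h2, ?_⟩
  have h3 : {z : ℂ | 1 / 2 - 1 / 2 < z.re ∧ G z = 0}.Finite :=
    (fin_shift (F := F) (G := G) (τ := 1 / 2) fun s _ => r.shift s).1 h
  rw [fin_iff r.diff r.conj r.strip] at h3
  obtain ⟨T, hT⟩ := h3
  obtain ⟨C, hC, hR⟩ := ra l (max T 1) (fun z hz hzT hI => by
    have hz1 : 1 ≤ z.im := (le_max_right _ _).trans hzT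
    have := hT z ((r.it z (im_ne (by linarith))).1 hI) ((le_max_left _ _).trans hzT)
    linarith)
  refine ⟨C, fun ρ hρ hρC => ?_⟩
  have him : (ρ - 1 / 2 : ℂ).im = ρ.im := by rw [Complex.sub_im, half_im, sub_zero]
  have hre : (ρ - 1 / 2 : ℂ).re = ρ.re - 1 / 2 := by rw [Complex.sub_re, half_re]
  have h4 := hR (ρ - 1 / 2) (zeta_XX (by linarith) hρ) (by rw [him]; exact hρC)
  rw [him, hre] at h4
  exact h4

lemma zeta_one_le {s : ℂ} (h : riemannZeta s = 0) : s.re < 1 := by
  by_contra hcon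
  push Not at hcon
  exact riemannZeta_ne_zero_of_one_le_re hcon h

theorem q1 {F : ℂ → ℂ} (h : Dictionary F) :
    Q1 ↔ ∃ σ₀ : ℝ, σ₀ < 1 ∧ {s : ℂ | σ₀ ≤ s.re ∧ F s = 0}.Finite := by
  constructor
  · rintro ⟨σ, h1, h2, h3⟩
    have h4 : AlmostFree riemannZeta σ := by
      intro ε hε
      refine Set.Finite.subset Set.finite_empty ?_
      rintro s ⟨hs1, hs2⟩
      exact absurd hs2 (h3 s (by linarith))
    have h5 := (h.1 σ h1.le).2 h4 ((1 - σ) / 4) (by linarith)
    refine ⟨σ + (1 - σ) / 2, by linarith, h5.subset ?_⟩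
    rintro s ⟨hs1, hs2⟩
    exact ⟨by linarith, hs2⟩
  · rintro ⟨σ, h1, h2⟩
    have h3 : AlmostFree F (max σ (1 / 2)) := by
      intro ε hε
      refine h2.subset ?_
      rintro s ⟨hs1, hs2⟩
      exact ⟨by linarith [le_max_left σ (1 / 2)], hs2⟩
    have hm : max σ (1 / 2) < 1 := max_lt h1 (by norm_num)
    have h4 := (h.1 _ (le_max_right _ _)).1 h3 ((1 - max σ (1 / 2)) / 2) (by linarith)
    set S : Set ℂ := {s : ℂ | max σ (1 / 2) + (1 - max σ (1 / 2)) / 2 < s.re ∧ riemannZeta s = 0} with hS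
    obtain ⟨b, hb1, hb2⟩ : ∃ b : ℝ, b < 1 ∧ ∀ s ∈ S, s.re ≤ b := by
      rcases S.eq_empty_or_nonempty with he | he
      · refine ⟨0, by norm_num, fun s hs => ?_⟩
        rw [he] at hs
        exact absurd hs (Set.notMem_empty s)
      · obtain ⟨w, hw1, hw2⟩ := Set.exists_max_image S (fun s => s.re) h4 he
        exact ⟨w.re, zeta_one_le hw1.2, hw2⟩
    refine ⟨(max (max b ((1 + max σ (1 / 2)) / 2)) (1 / 2) + 1) / 2, ?_, ?_, fun s hs h0 => ?_⟩
    · have : (1 + max σ (1 / 2)) / 2 ≤ max (max b ((1 + max σ (1 / 2)) / 2)) (1 / 2) :=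
        (le_max_right _ _).trans (le_max_left _ _)
      have := le_max_right σ (1 / 2 : ℝ)
      linarith
    · have : max (max b ((1 + max σ (1 / 2)) / 2)) (1 / 2) < 1 :=
        max_lt (max_lt hb1 (by linarith)) (by norm_num)
      linarith
    · have e1 : max (max b ((1 + max σ (1 / 2)) / 2)) (1 / 2) < 1 :=
        max_lt (max_lt hb1 (by linarith)) (by norm_num)
      have e2 : (1 + max σ (1 / 2)) / 2 ≤ max (max b ((1 + max σ (1 / 2)) / 2)) (1 / 2) :=
        (le_max_right _ _).trans (le_max_left _ _)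
      have e3 : b ≤ max (max b ((1 + max σ (1 / 2)) / 2)) (1 / 2) :=
        (le_max_left _ _).trans (le_max_left _ _)
      have h5 := hb2 s ⟨by linarith, h0⟩
      linarith

/-- For every `n`: (1), (2) the dictionary for `ξ^(n)` and for the shifted function `Φ_n`; Q1 holds if and only if one
of them has only finitely many zeros in some half-plane `Re s ≥ σ₀`, `σ₀ < 1`; (3), (4) if one of them
has only finitely many zeros to the right of the critical line, then the Lindelof hypothesis holds and the zeros of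
`ζ` approach the critical line; (5) so do they if the Jensen polynomials `J^{d,n}` of ONE shift `n` and all
degrees `d` have only real zeros. -/
theorem result (n : ℕ) :
    Dictionary (iteratedDeriv n xi) ∧ Dictionary (fun s => Φ n (s - 1 / 2)) ∧
    (Q1 ↔ ∃ σ₀ : ℝ, σ₀ < 1 ∧ {s : ℂ | σ₀ ≤ s.re ∧ iteratedDeriv n xi s = 0}.Finite) ∧
    (Q1 ↔ ∃ σ₀ : ℝ, σ₀ < 1 ∧ {s : ℂ | σ₀ ≤ s.re ∧ Φ n (s - 1 / 2) = 0}.Finite) ∧
    ({s : ℂ | 1 / 2 < s.re ∧ iteratedDeriv n xi s = 0}.Finite → Lindelof ∧ CloseToTheLine) ∧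
    ({s : ℂ | 1 / 2 < s.re ∧ Φ n (s - 1 / 2) = 0}.Finite → Lindelof ∧ CloseToTheLine) ∧
    ((∀ d : ℕ, Hyperbolic (J d n)) → (∀ z : ℂ, Φ n z = 0 → z.re = 0) ∧ Lindelof ∧ CloseToTheLine) := by
  refine ⟨dict (rep_false n), dict (rep_true n), q1 (dict (rep_false n)), q1 (dict (rep_true n)),
    conseq (rep_false n), conseq (rep_true n), fun h => ?_⟩
  have h0 : ∀ z : ℂ, Φ n z = 0 → z.re = 0 := fun z hz => by
    rw [Φ_eq] at hz
    obtain ⟨h1, h2⟩ := jn n (fun d => by rw [← J_eq]; exact h d) _ hz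
    rw [pow_two, Complex.mul_im] at h1
    rw [pow_two, Complex.mul_re] at h2
    by_contra hne
    have h3 : z.im = 0 := by
      have : z.re * z.im = 0 := by linarith
      rcases mul_eq_zero.1 this with h4 | h4
      · exact absurd h4 hne
      · exact h4
    rw [h3] at h2
    nlinarith [mul_self_nonneg z.re]
  refine ⟨h0, conseq (rep_true n) ?_⟩
  refine Set.Finite.subset Set.finite_empty ?_
  rintro s ⟨hs1, hs2⟩
  have := h0 _ hs2
  rw [Complex.sub_re, half_re] at this
  linarith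

end Pool.Agent.Results.MP_5a4862_nt.DerivativesAndShifts
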