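import Pool.Agent.Q204.NA.A8
import Pool.Agent.Q204.NA.Rb3
import Pool.Agent.Q204.NA.Rb5
import Pool.Agent.Q296.NA.Ex
import Pool.Agent.Q210.NA.Asym
import Pool.Agent.Q19.NA.Dist

set_option autoImplicit false

/-!
# A zero-free half-plane and the number of the exceptions to the inequalities of Nicolas and Robin

Let `A(x)` be the number of the integers `3 ≤ n ≤ x` with `n/φ(n) > e^γ log log n`, and `R(x)` the number of
those with `σ(n) ≥ e^γ n log log n`.  `ζ` has a zero-free half-plane `Re s ≥ σ₀`, `σ₀ < 1`, if and only if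
`A(x) ≤ exp((log x)^(1-δ))` for some `δ > 0` and all large `x`, and if and only if
`R(x) ≤ exp((log x)^(1-δ))` for some `δ > 0` and some arbitrarily large `x`; otherwise
`R(x) ≥ exp((log x)^(1-ε))` for every `ε > 0` and all large `x`.  The supremum `Θ` of the real parts of the zeros is
`2 lim (log log A(x) / log log x) - 1`, and if `Θ < 1` there is an asymptotic formula for `log A(x)` (and for
`log R(x)`, if `1/2 < Θ < 1`) in terms of the quotients of Nicolas at the primorials.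
The asymptotics under the Riemann hypothesis are the subject of `MP_db1c88_nt.ExceptionsAsymptotics`.
-/

open Filter Topology
open scoped NNReal

namespace Pool.Agent.Results.MP_5a4862_nt.ExceptionCounts

/-- the number of integers `n` with `3 ≤ n ≤ x` and `n / φ(n) > e^γ log log n` -/
noncomputable def nicolasCount (x : ℝ) : ℕ :=
  {n : ℕ | 3 ≤ n ∧ (n : ℝ) ≤ x ∧
    Real.exp Real.eulerMascheroniConstant * Real.log (Real.log n) < (n : ℝ) / (Nat.totient n : ℝ)}.ncard

/-- the number of integers `n` with `3 ≤ n ≤ x` and `σ(n) ≥ e^γ n log log n` -/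
noncomputable def robinCount (x : ℝ) : ℕ :=
  {n : ℕ | 3 ≤ n ∧ (n : ℝ) ≤ x ∧
    Real.exp Real.eulerMascheroniConstant * n * Real.log (Real.log n) ≤
      (ArithmeticFunction.sigma 1 n : ℝ)}.ncard

/-- the quotient of Nicolas at the primorial: `q(j) = (N/φ(N)) / (e^γ log log N)`, where `N` is the product
of the primes up to `j` -/
noncomputable def quot (j : ℕ) : ℝ :=
  ((primorial j : ℝ) / (Nat.totient (primorial j) : ℝ)) /
    (Real.exp Real.eulerMascheroniConstant * Real.log (Real.log (primorial j)))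

/-- `M(x) = max_{3 ≤ j ≤ log x} j √(log⁺ q(j) / log j)` -/
noncomputable def peak (x : ℝ) : ℝ :=
  sSup {r : ℝ | ∃ j : ℕ, 3 ≤ j ∧ (j : ℝ) ≤ Real.log x ∧ r = j * Real.sqrt (Real.posLog (quot j) / Real.log j)}

theorem nicolasCount_eq (x : ℝ) : nicolasCount x = Q239.RN.cnt Q239.RN.NicEx x := by
  unfold nicolasCount Q239.RN.cnt
  congr 1
  ext n
  simp only [Set.mem_ofPred_eq, Q239.RN.NicEx]
  constructor
  · rintro ⟨h1, h2, h3⟩
    have hphi : (0 : ℝ) < Nat.totient n := by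
      exact_mod_cast Nat.totient_pos.2 (by omega)
    rw [lt_div_iff₀ hphi] at h3
    exact ⟨h2, h1, by nlinarith⟩
  · rintro ⟨h1, h2, h3⟩
    have hphi : (0 : ℝ) < Nat.totient n := by
      exact_mod_cast Nat.totient_pos.2 (by omega)
    refine ⟨h2, h1, ?_⟩
    rw [lt_div_iff₀ hphi]
    nlinarith

theorem robinCount_eq (x : ℝ) : robinCount x = Q239.RN.cnt Q239.RN.RobEx x := by
  unfold robinCount Q239.RN.cnt
  congr 1
  ext n
  simp only [Set.mem_ofPred_eq, Q239.RN.RobEx]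
  tauto

theorem robin_le_nicolas (x : ℝ) : robinCount x ≤ nicolasCount x := by
  rw [robinCount_eq, nicolasCount_eq]
  exact Q239.RN.cnt_mono (fun n => Q239.RN.nicEx_of_robEx) x

theorem const_eq : Real.pi * Real.sqrt (2 / 3) = Q204.NA.c0 := rfl

theorem log_quot {j : ℕ} (hj : 3 ≤ j) : Real.log (quot j) = Q204.NA.DD j := by
  have h0 : primorial j ≠ 0 := (primorial_pos j).ne'
  have hp : primorial j = ∏ p ∈ Q239.RN.PS j, p := by
    unfold primorial
    refine Finset.prod_congr ?_ fun _ _ => rfl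
    ext p
    rw [Finset.mem_filter, Finset.mem_range, Q239.RN.mem_PS]
    constructor
    · rintro ⟨h1, h2⟩; exact ⟨h2, by omega⟩
    · rintro ⟨h1, h2⟩; exact ⟨by omega, h1⟩
  have hfac : (primorial j).primeFactors = Q239.RN.PS j := by
    rw [hp]
    exact Nat.primeFactors_prod fun p hp => (Q239.RN.mem_PS.1 hp).1
  have h3 : 3 ≤ primorial j := by
    refine Nat.le_of_dvd (primorial_pos j) (Nat.dvd_of_mem_primeFactors ?_)
    rw [hfac, Q239.RN.mem_PS]
    exact ⟨Nat.prime_three, hj⟩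
  have hθ : Real.log (primorial j) = Chebyshev.theta (j : ℝ) := by
    rw [Chebyshev.theta_eq_log_primorial, Nat.floor_natCast]
  have hN : (0 : ℝ) < primorial j := by exact_mod_cast primorial_pos j
  have hφ : (0 : ℝ) < Nat.totient (primorial j) := by exact_mod_cast Nat.totient_pos.2 (primorial_pos j)
  have hl : 1 < Real.log (primorial j) := Q239.RN.log_gt_one h3
  have hll : 0 < Real.log (Real.log (primorial j)) := Real.log_pos hl
  have ht := Q239.RN.log_totient (primorial j) h0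
  rw [hfac] at ht
  unfold quot Q204.NA.DD Q239.RN.SL
  rw [Real.log_div (by positivity) (by positivity), Real.log_div hN.ne' hφ.ne',
    Real.log_mul (Real.exp_pos _).ne' hll.ne', Real.log_exp, ht, hθ]
  ring

theorem peak_eq (x : ℝ) : peak x = Q204.NA.Mq (Real.log x) := by
  unfold peak Q204.NA.Mq
  congr 1
  ext r
  simp only [Set.mem_ofPred_eq]
  constructor
  · rintro ⟨j, h1, h2, h3⟩
    refine ⟨j, h1, h2, ?_⟩
    rw [h3, Q204.NA.Fq, ← log_quot h1, max_comm]
    rfl
  · rintro ⟨j, h1, h2, h3⟩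
    refine ⟨j, h1, h2, ?_⟩
    rw [h3, Q204.NA.Fq, ← log_quot h1, max_comm]
    rfl

/-- `ζ` has a zero-free half-plane `Re s ≥ σ₀`, `1/2 < σ₀ < 1` (the statement of Q1) -/
def ZeroFreeHalfPlane : Prop :=
  ∃ σ₀ : ℝ, 1 / 2 < σ₀ ∧ σ₀ < 1 ∧ ∀ s : ℂ, σ₀ ≤ s.re → riemannZeta s ≠ 0

/-- **A zero-free half-plane and the exceptions to the inequalities of Nicolas and Robin.**

Let `A(x)` (`nicolasCount`) be the number of `3 ≤ n ≤ x` with `n/φ(n) > e^γ log log n`, and `R(x)`
(`robinCount`) the number of `3 ≤ n ≤ x` with `σ(n) ≥ e^γ n log log n`.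

1. The following are equivalent: `ζ` has a zero-free half-plane `Re s ≥ σ₀`, `1/2 < σ₀ < 1`;
   `A(x) ≤ exp((log x)^(1-δ))` for some `δ > 0` and all large `x`; `R(x) ≤ exp((log x)^(1-δ))` for some `δ > 0`
   and all large `x`; the same for some `δ > 0` and some arbitrarily large `x`; not
   [`R(x) ≥ exp((log x)^(1-ε))` for every `ε > 0` and all large `x`].
2. For `1/2 ≤ θ < 1`: `ζ` has no zeros with `Re s > θ`, if and only if
   `A(x) ≤ exp((log x)^((1+θ)/2+ε))` for every `ε > 0` and all large `x`, if and only if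
   `R(x) ≤ exp((log x)^((1+θ)/2+ε))` for every `ε > 0` and some arbitrarily large `x`.
3. Let `Θ` be the supremum of the real parts of the nontrivial zeros of `ζ`.  Then
   `log log A(x) / log log x → (1 + Θ)/2`, and if `Θ > 1/2`, also `log log R(x) / log log x → (1 + Θ)/2`.  If `Θ < 1`, then
   `log A(x) ~ π √(2/3) max_{3 ≤ j ≤ log x} j √(log⁺ q(j) / log j)`, `q(j)` the quotient of Nicolas
   `(N/φ(N)) / (e^γ log log N)` at the primorial `N` of `j`; if `1/2 < Θ < 1`, also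
   `log R(x) ~ log A(x)`.
4. Unconditionally `A(x) ≤ exp(log x / (log log x)^U)` for every `U` and all large `x`. -/
theorem result :
    [ZeroFreeHalfPlane,
      (∃ δ : ℝ, 0 < δ ∧ ∀ᶠ x : ℝ in atTop, (nicolasCount x : ℝ) ≤ Real.exp (Real.log x ^ (1 - δ))),
      (∃ δ : ℝ, 0 < δ ∧ ∀ᶠ x : ℝ in atTop, (robinCount x : ℝ) ≤ Real.exp (Real.log x ^ (1 - δ))),
      (∃ δ : ℝ, 0 < δ ∧ ∃ᶠ x : ℝ in atTop, (robinCount x : ℝ) ≤ Real.exp (Real.log x ^ (1 - δ))),
      (¬ ∀ ε : ℝ, 0 < ε → ∀ᶠ x : ℝ in atTop, Real.exp (Real.log x ^ (1 - ε)) ≤ (robinCount x : ℝ))].TFAE ∧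
    (∀ θ : ℝ, 1 / 2 ≤ θ → θ < 1 →
      [(∀ s : ℂ, θ < s.re → riemannZeta s ≠ 0),
        (∀ ε : ℝ, 0 < ε → ∀ᶠ x : ℝ in atTop,
          (nicolasCount x : ℝ) ≤ Real.exp (Real.log x ^ ((1 + θ) / 2 + ε))),
        (∀ ε : ℝ, 0 < ε → ∃ᶠ x : ℝ in atTop,
          (robinCount x : ℝ) ≤ Real.exp (Real.log x ^ ((1 + θ) / 2 + ε)))].TFAE) ∧
    (∃ Θ : ℝ, IsLUB {x : ℝ | ∃ s : ℂ, riemannZeta s = 0 ∧ 0 < s.re ∧ x = s.re} Θ ∧
      1 / 2 ≤ Θ ∧ Θ ≤ 1 ∧ (ZeroFreeHalfPlane ↔ Θ < 1) ∧
      Tendsto (fun x : ℝ => Real.log (Real.log (nicolasCount x)) / Real.log (Real.log x)) atTop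
        (𝓝 ((1 + Θ) / 2)) ∧
      (1 / 2 < Θ →
        Tendsto (fun x : ℝ => Real.log (Real.log (robinCount x)) / Real.log (Real.log x)) atTop
          (𝓝 ((1 + Θ) / 2))) ∧
      (Θ < 1 → Tendsto (fun x : ℝ => Real.log (nicolasCount x) / (Real.pi * Real.sqrt (2 / 3) * peak x))
        atTop (𝓝 1)) ∧
      (1 / 2 < Θ → Θ < 1 → Tendsto (fun x : ℝ => Real.log (robinCount x) / Real.log (nicolasCount x))
        atTop (𝓝 1))) ∧
    (∀ U : ℕ, ∀ᶠ x : ℝ in atTop,
      (nicolasCount x : ℝ) ≤ Real.exp (Real.log x / Real.log (Real.log x) ^ U)) := by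
  have hD : Q204.NA.SDist := Pool.Agent.Q19.NA.many_distinct
  obtain ⟨Θ, hlub, h1, h2, hz, hs⟩ := Q239.RN.exists_sup
  have hN : nicolasCount = fun x => Q239.RN.cnt Q239.RN.NicEx x := funext nicolasCount_eq
  have hR : robinCount = fun x => Q239.RN.cnt Q239.RN.RobEx x := funext robinCount_eq
  have hlaw : Tendsto (fun x : ℝ => Real.log (Real.log (nicolasCount x)) / Real.log (Real.log x)) atTop
        (𝓝 ((1 + Θ) / 2)) := by
    rw [hN]
    exact Q239.RN.nic_law h1 h2 hz hs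
  have hfree : ZeroFreeHalfPlane ↔ Θ < 1 := by
    constructor
    · rintro ⟨σ₀, a1, a2, a3⟩
      by_contra hcon
      obtain ⟨ρ, hρ, h4⟩ := hs σ₀ (by linarith)
      exact a3 ρ h4.le hρ
    · intro h
      exact ⟨(1 + Θ) / 2 + (1 - Θ) / 4, by linarith, by linarith, fun s h5 => hz s (by linarith)⟩
  have hpart2 : ∀ θ : ℝ, 1 / 2 ≤ θ → θ < 1 →
      [(∀ s : ℂ, θ < s.re → riemannZeta s ≠ 0),
        (∀ ε : ℝ, 0 < ε → ∀ᶠ x : ℝ in atTop,
          (nicolasCount x : ℝ) ≤ Real.exp (Real.log x ^ ((1 + θ) / 2 + ε))),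
        (∀ ε : ℝ, 0 < ε → ∃ᶠ x : ℝ in atTop,
          (robinCount x : ℝ) ≤ Real.exp (Real.log x ^ ((1 + θ) / 2 + ε)))].TFAE := by
    intro θ h3 h4
    tfae_have 1 → 2 := by
      intro h ε hε
      rw [hN]
      exact Q239.RN.upper_free h3 h4 h hε
    tfae_have 2 → 3 := by
      intro h ε hε
      refine ((h ε hε).mono fun x hx => ?_).frequently
      exact le_trans (by exact_mod_cast robin_le_nicolas x) hx
    tfae_have 3 → 1 := by
      intro h
      rw [hR] at h
      exact Q239.RN.free_of_rob h2 hz hs h3 h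
    tfae_finish
  refine ⟨?_, hpart2, ⟨Θ, hlub, h1, h2, hfree, hlaw, fun hn => ?_, ?_, ?_⟩, fun U => ?_⟩
  · tfae_have 1 → 2 := by
      rintro ⟨σ₀, a1, a2, a3⟩
      have h6 : ∀ s : ℂ, σ₀ < s.re → riemannZeta s ≠ 0 := fun s hs' => a3 s hs'.le
      have h5 := ((hpart2 σ₀ a1.le a2).out 0 1).1 h6
      have h5 := h5 ((1 - σ₀) / 4) (by linarith)
      refine ⟨(1 - σ₀) / 4, by linarith, ?_⟩
      filter_upwards [h5] with x a4
      have e : (1 + σ₀) / 2 + (1 - σ₀) / 4 = 1 - (1 - σ₀) / 4 := by ring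
      rwa [e] at a4
    tfae_have 2 → 3 := by
      rintro ⟨δ, hδ, h⟩
      exact ⟨δ, hδ, h.mono fun x hx => le_trans (by exact_mod_cast robin_le_nicolas x) hx⟩
    tfae_have 3 → 4 := by
      rintro ⟨δ, hδ, h⟩
      exact ⟨δ, hδ, h.frequently⟩
    tfae_have 4 → 5 := by
      rintro ⟨δ, hδ, h⟩ hcon
      have h6 := hcon (δ / 2) (by linarith)
      rw [hR] at h h6
      exact Q239.RN.incompat (κ := 1 - δ) (κ' := 1 - δ / 2) (by linarith) h h6
    tfae_have 5 → 1 := by
      intro h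
      rw [hfree]
      by_contra hcon
      have hΘ : Θ = 1 := le_antisymm h2 (not_lt.1 hcon)
      refine h fun ε hε => ?_
      rw [hR]
      filter_upwards [Q239.RN.rob_lower (Θ := Θ) (by linarith) h2 hz hs hε] with x hx
      have e : (1 + Θ) / 2 - ε = 1 - ε := by rw [hΘ]; ring
      rwa [e] at hx
    tfae_finish
  · rw [hR]
    exact Q239.RN.rob_law hn h2 hz hs
  · -- the law in terms of the primorials
    intro h3
    have hg : 0 < 1 - Θ := by linarith
    obtain ⟨C, hC, hbd⟩ := Q239.RN.eT_free (θ := Θ) (θ' := Θ + (1 - Θ) / 16) h1 hz (by linarith) (by linarith)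
    have hM := Q204.NA.Mx_lower (κ1 := Θ + (1 - Θ) / 8) h1 h3 hz hs (by linarith) (by linarith)
    rw [Metric.tendsto_nhds]
    intro ε hε
    set δ := min (ε / 4) (1 / 2) with hδ
    have hδ0 : 0 < δ := lt_min (by positivity) (by norm_num)
    have hδ1 : δ ≤ 1 / 2 := min_le_right _ _
    have hδε : 4 * δ ≤ ε := by have := min_le_left (ε / 4) (1 / 2); linarith
    have hcmp := Q204.NA.Mq_Mx hC (by linarith) (by linarith) hbd (by linarith) hM (show 0 < δ / 2 by positivity)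
    have hlog := Q204.NA.law_log hD h1 h3 hz hs (show 0 < δ / 2 by positivity)
    have hc0 := Q204.NA.c0_pos
    filter_upwards [hlog, Real.tendsto_log_atTop.eventually hcmp, Real.tendsto_log_atTop.eventually hM,
      Real.tendsto_log_atTop.eventually_ge_atTop 3] with x a1 a2 a3 a4
    rw [Real.dist_eq, nicolasCount_eq, peak_eq, const_eq]
    set L := Real.log (Q239.RN.cnt Q239.RN.NicEx x) with hL
    set m := Q204.NA.Mx (Real.log x) with hm
    set q := Q204.NA.Mq (Real.log x) with hq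
    have hm0 : 0 < m := lt_of_lt_of_le (by positivity) a3
    obtain ⟨b1, b2⟩ := abs_le.1 a1
    obtain ⟨b3, b4⟩ := abs_le.1 a2
    have hq0 : (3 / 4) * m ≤ q := by nlinarith
    have hqp : 0 < q := by linarith
    have e1 : L / (Q204.NA.c0 * q) - 1 = (L - Q204.NA.c0 * q) / (Q204.NA.c0 * q) := by
      field_simp
    rw [e1, abs_div, abs_of_pos (show 0 < Q204.NA.c0 * q by positivity), div_lt_iff₀ (by positivity)]
    have b5 : |L - Q204.NA.c0 * q| ≤ δ * (Q204.NA.c0 * m) := by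
      have c1 : Q204.NA.c0 * q ≤ Q204.NA.c0 * m + δ / 2 * (Q204.NA.c0 * m) := by
        have : Q204.NA.c0 * q ≤ Q204.NA.c0 * (m + δ / 2 * m) := by
          apply mul_le_mul_of_nonneg_left _ hc0.le
          linarith
        linarith
      have c2 : Q204.NA.c0 * m - δ / 2 * (Q204.NA.c0 * m) ≤ Q204.NA.c0 * q := by
        have : Q204.NA.c0 * (m - δ / 2 * m) ≤ Q204.NA.c0 * q := by
          apply mul_le_mul_of_nonneg_left _ hc0.le
          linarith
        linarith
      rw [abs_le]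
      constructor <;> linarith
    refine lt_of_le_of_lt b5 ?_
    have c3 : Q204.NA.c0 * m ≤ 2 * (Q204.NA.c0 * q) := by
      have : Q204.NA.c0 * m ≤ Q204.NA.c0 * (2 * q) := by
        apply mul_le_mul_of_nonneg_left _ hc0.le
        linarith
      linarith
    have c4 : 0 < Q204.NA.c0 * q := by positivity
    calc δ * (Q204.NA.c0 * m) ≤ δ * (2 * (Q204.NA.c0 * q)) := by gcongr
      _ = 2 * δ * (Q204.NA.c0 * q) := by ring
      _ < ε * (Q204.NA.c0 * q) := by
        apply mul_lt_mul_of_pos_right _ c4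
        linarith
  · -- Robin
    intro h3 h4
    rw [Metric.tendsto_nhds]
    intro ε hε
    set δ := min (ε / 8) (1 / 2) with hδ
    have hδ0 : 0 < δ := lt_min (by positivity) (by norm_num)
    have hδ1 : δ ≤ 1 / 2 := min_le_right _ _
    have hδε : 8 * δ ≤ ε := by have := min_le_left (ε / 8) (1 / 2); linarith
    have hc0 := Q204.NA.c0_pos
    have hM := Q204.NA.Mx_lower (κ1 := Θ + (1 - Θ) / 8) h1 h4 hz hs (by linarith) (by linarith)
    filter_upwards [Q204.NA.law_lowerR hD h3 h4 hz hs hδ0, Q204.NA.law_upper h1 h4 hz hs hδ0,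
      Real.tendsto_log_atTop.eventually hM, Real.tendsto_log_atTop.eventually_ge_atTop 3] with x a1 a2 a3 a4
    have hle : (Q239.RN.cnt Q239.RN.RobEx x : ℝ) ≤ Q239.RN.cnt Q239.RN.NicEx x := by
      exact_mod_cast Q239.RN.cnt_mono (fun n => Q239.RN.nicEx_of_robEx) x
    have hp1 : (0 : ℝ) < Q239.RN.cnt Q239.RN.RobEx x := lt_of_lt_of_le (Real.exp_pos _) a1
    have hp2 : (0 : ℝ) < Q239.RN.cnt Q239.RN.NicEx x := lt_of_lt_of_le hp1 hle
    have b1 := (Real.le_log_iff_exp_le hp1).2 a1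
    have b2 := (Real.log_le_iff_le_exp hp2).2 a2
    have b3 := Real.log_le_log hp1 hle
    rw [Real.dist_eq, nicolasCount_eq, robinCount_eq]
    set L := Real.log (Q239.RN.cnt Q239.RN.NicEx x) with hL
    set L' := Real.log (Q239.RN.cnt Q239.RN.RobEx x) with hL'
    set m := Q204.NA.Mx (Real.log x) with hm
    have hm0 : 0 < m := lt_of_lt_of_le (by positivity) a3
    have hcm : 0 < Q204.NA.c0 * m := by positivity
    have hLpos : 0 < L' := by nlinarith
    have hLp : 0 < L := by linarith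
    have e1 : L' / L - 1 = (L' - L) / L := by field_simp
    rw [e1, abs_div, abs_of_pos hLp, div_lt_iff₀ hLp, abs_sub_comm, abs_of_nonneg (by linarith)]
    have c1 : L - L' ≤ 2 * δ * (Q204.NA.c0 * m) := by linarith
    have c2 : Q204.NA.c0 * m ≤ 2 * L := by nlinarith
    calc L - L' ≤ 2 * δ * (Q204.NA.c0 * m) := c1
      _ ≤ 2 * δ * (2 * L) := by gcongr
      _ < ε * L := by nlinarith
  · rw [hN]
    exact Q239.RN.upper_all U

end Pool.Agent.Results.MP_5a4862_nt.ExceptionCounts
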