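import Pool.Agent.Q260.DT.Inst

/-!
# Averages of the Riemann xi function over two shifts: the exact threshold

Let `F_(a,u)(s) = ξ(s + a) + u ξ(s - a)`, `0 < a ≤ 1`, `|u| = 1`. Taylor (1945): for `a ≥ 1/2` the zeros of
`ξ(s + a) ± ξ(s - a)` are on the critical line; de Bruijn (1950): for `a < 1/2` they satisfy
`|Re s - 1/2| ≤ √(1/4 - a²)`. We show, without any hypothesis, that at large heights the zeros of `F_(a,u)` are in the strip
`|Re s - 1/2| ≤ max (Θ - 1/2 - a, 0) + ε`, where `Θ` is the supremum of the real parts of the zeros of zeta (at large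
heights), and that this is sharp. In particular all but finitely many of the zeros of `F_(a,u)` in the upper half plane are on
the line for `a > Θ - 1/2`, but not for `a < Θ - 1/2`: Taylor's theorem can be extended below `1/2` if and only if zeta has a
zero-free half-plane.
-/

set_option autoImplicit false

open Complex

namespace Pool.Agent.Results.MP_5a4862_nt.ShiftThreshold

/-- The Riemann function `ξ(s) = s (s - 1) Λ(s) / 2`, `Λ(s) = π^(-s/2) Γ(s/2) ζ(s) = Λ₀(s) - 1/s - 1/(1 - s)`. -/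
noncomputable def xi (s : ℂ) : ℂ := s * (s - 1) / 2 * completedRiemannZeta₀ s + 1 / 2

/-- `F_(a,u)(s) = ξ(s + a) + u ξ(s - a)`. -/
noncomputable def F (a : ℝ) (u s : ℂ) : ℂ := xi (s + a) + u * xi (s - a)

/-- For every `ε > 0` there are only finitely many zeros with `Re s > θ + ε`. -/
def AlmostFree (G : ℂ → ℂ) (θ : ℝ) : Prop :=
  ∀ ε : ℝ, 0 < ε → {s : ℂ | θ + ε < s.re ∧ G s = 0}.Finite

/-- For every `ε > 0` the zeros with large imaginary part satisfy `|Re s - 1/2| ≤ δ + ε`. -/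
def Within (G : ℂ → ℂ) (δ : ℝ) : Prop :=
  ∀ ε : ℝ, 0 < ε → ∃ T : ℝ, ∀ s : ℂ, T ≤ s.im → G s = 0 → |s.re - 1 / 2| ≤ δ + ε

/-- From some height on all zeros are on the critical line. -/
def Line (G : ℂ → ℂ) : Prop := ∃ T : ℝ, ∀ s : ℂ, T ≤ s.im → G s = 0 → s.re = 1 / 2

/-- The exceptional value `- exp (i π a / 2)` of `u`. -/
noncomputable def res (a : ℝ) : ℂ := -cexp (I * ((Real.pi * a / 2 : ℝ) : ℂ))

/-- Q1 of the problem. -/
def Q1 : Prop := ∃ σ₀ : ℝ, 1 / 2 < σ₀ ∧ σ₀ < 1 ∧ ∀ s : ℂ, σ₀ ≤ s.re → riemannZeta s ≠ 0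

/-- The local dictionary between the zeros of zeta and those of `F_(a,u)`, with precision `ε`. -/
def Dictionary (a ε : ℝ) (u : ℂ) : Prop := ∃ C : ℝ, 3 ≤ C ∧
  (u ≠ res a → ∀ (ρ : ℂ) (σ : ℝ), riemannZeta ρ = 0 → C ≤ ρ.im → 1 / 2 ≤ σ → σ + a + ε ≤ ρ.re →
    ∃ w : ℂ, F a u w = 0 ∧ σ < w.re ∧ |w.im - ρ.im| ≤ C * Real.log ρ.im) ∧
  ∀ (w : ℂ) (σ : ℝ), F a u w = 0 → C ≤ w.im → 1 / 2 ≤ σ → σ + ε ≤ w.re →
    ∃ ρ : ℂ, riemannZeta ρ = 0 ∧ σ + a < ρ.re ∧ |ρ.im - w.im| ≤ C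

/-- `xi` is the Riemann function: `ξ(s) = s (s - 1) Λ(s) / 2`. -/
theorem xi_eq (s : ℂ) (h0 : s ≠ 0) (h1 : s ≠ 1) : xi s = s * (s - 1) / 2 * completedRiemannZeta s := by
  have h2 : (1 - s : ℂ) ≠ 0 := fun h => h1 (sub_eq_zero.1 h).symm
  rw [completedRiemannZeta_eq]
  unfold xi
  field_simp
  ring

/-- (1) dictionary; (2) sharp strips; (3) the unconditional strip; (4) the threshold; (5) Q1. -/
theorem result :
    (∀ (a ε : ℝ) (u : ℂ), 0 < a → a ≤ 1 → 0 < ε → ‖u‖ = 1 → Dictionary a ε u) ∧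
    (∀ (a δ : ℝ) (u : ℂ), 0 < a → a ≤ 1 → 0 ≤ δ → ‖u‖ = 1 →
      (AlmostFree riemannZeta (1 / 2 + a + δ) → Within (F a u) δ) ∧
      (u ≠ res a → Within (F a u) δ → AlmostFree riemannZeta (1 / 2 + a + δ))) ∧
    (∀ (a : ℝ) (u : ℂ), 0 < a → a ≤ 1 / 2 → ‖u‖ = 1 → Within (F a u) (1 / 2 - a)) ∧
    (∀ (u : ℂ) (θ : ℝ), ‖u‖ = 1 → 1 / 2 ≤ θ →
      (AlmostFree riemannZeta θ ↔ ∀ a : ℝ, θ - 1 / 2 < a → a ≤ 1 → Line (F a u))) ∧
    (∀ u : ℂ, ‖u‖ = 1 → (Q1 ↔ ∃ a : ℝ, 0 < a ∧ a < 1 / 2 ∧ u ≠ res a ∧ Line (F a u))) ∧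
    (∀ (a : ℝ) (u : ℂ), 0 < a → a < 1 / 2 → ‖u‖ = 1 → u ≠ res a →
      (Q1 ↔ ∃ δ : ℝ, 0 ≤ δ ∧ δ < 1 / 2 - a ∧ Within (F a u) δ)) ∧
    ∀ a : ℝ, 0 < a → a ≤ 1 → (1 : ℂ) ≠ res a ∧ (-1 : ℂ) ≠ res a := by
  refine ⟨?_, ?_, ?_, ?_, ?_, ?_, ?_⟩
  · intro a ε u ha ha1 hε hu
    exact Pool.Agent.Q260.DT.Inst.dict_s a ε u ha ha1 hε hu
  · intro a δ u ha ha1 hδ hu
    have e : 1 / 2 + a + δ = 1 / 2 + δ + a := by ring
    constructor
    · intro h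
      rw [e] at h
      exact (Pool.Agent.Q260.DT.Inst.within_iff a δ u hu).2
        (Pool.Agent.Q260.DT.Fin.fwd Pool.Agent.Q260.DT.Inst.hRX Pool.Agent.Q260.DT.Inst.hBG a u ha ha1 hu _
          (by linarith) h)
    · intro hne h
      rw [e]
      exact Pool.Agent.Q260.DT.Fin.bwd Pool.Agent.Q260.DT.Inst.hRX a u ha hu hne _ (by linarith)
        ((Pool.Agent.Q260.DT.Inst.within_iff a δ u hu).1 h)
  · intro a u ha ha1 hu
    refine (Pool.Agent.Q260.DT.Inst.within_iff a (1 / 2 - a) u hu).2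
      (Pool.Agent.Q260.DT.Fin.fwd Pool.Agent.Q260.DT.Inst.hRX Pool.Agent.Q260.DT.Inst.hBG a u ha (by linarith) hu _
        (by linarith) ?_)
    exact Pool.Agent.Q260.DT.Inst.free_mono (by linarith) Pool.Agent.Q260.DT.Inst.free_one
  · intro u θ hu hθ
    exact Pool.Agent.Q260.DT.Inst.threshold u hu θ hθ
  · intro u hu
    exact Pool.Agent.Q260.DT.Inst.q1_line u hu
  · intro a u ha ha1 hu hne
    exact Pool.Agent.Q260.DT.Inst.q1_within a u ha ha1 hu hne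
  · intro a ha ha1
    exact ⟨Pool.Agent.Q260.DT.Inst.one_ne_res ha ha1, Pool.Agent.Q260.DT.Inst.neg_one_ne_res ha ha1⟩

end Pool.Agent.Results.MP_5a4862_nt.ShiftThreshold
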